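import Mathlib
import Pool.Agent.P.MP_6b7d8e_lc.Univ

namespace Pool.Agent.Results.MP_6b7d8e_lc.NotRealised

open scoped ENNReal

/-- The complexity function `C_U(x | y) = min {|p| : U(p, y) = x}` (`⊤` if there is no such `p`). -/
noncomputable def C (U : List Bool → List Bool →. List Bool) (x y : List Bool) : ℕ∞ :=
  sInf {n : ℕ∞ | ∃ p : List Bool, x ∈ U p y ∧ (p.length : ℕ∞) = n}

/-- For every `y`, no two distinct programs, one an initial segment of the other, both halt. -/
def PrefixFree (U : List Bool → List Bool →. List Bool) : Prop :=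
  ∀ y p p' : List Bool, p ≠ p' → p <+: p' → ¬ ((U p y).Dom ∧ (U p' y).Dom)

/-- `U(p, y) = x` implies `U(p', y) = x` for every extension `p'` of `p`. -/
def PrefixStable (U : List Bool → List Bool →. List Bool) : Prop :=
  ∀ y p p' x : List Bool, p <+: p' → x ∈ U p y → x ∈ U p' y

/-- `K x y` is the limit of a uniformly computable sequence `k n x y` of total functions that is
non-increasing in `n`. -/
def UpperSemicomputable (K : List Bool → List Bool → ℕ) : Prop :=
  ∃ k : ℕ → List Bool → List Bool → ℕ,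
    Computable (fun t : ℕ × List Bool × List Bool => k t.1 t.2.1 t.2.2) ∧
    (∀ x y, Antitone fun n => k n x y) ∧
    ∀ x y, Filter.Tendsto (fun n => k n x y) Filter.atTop (nhds (K x y))

/-- Upper semicomputable, with `∑ₓ 2^(-K(x | y)) ≤ 1` for every `y`. -/
def Admissible (K : List Bool → List Bool → ℕ) : Prop :=
  UpperSemicomputable K ∧ ∀ y, ∑' x : List Bool, (2⁻¹ : ℝ≥0∞) ^ K x y ≤ 1

open Nat.Partrec Nat.Partrec.Code Encodable Denumerable

/-! ### The diagonal construction -/

/-- Step `m = (s, p, q)`: if within `s` steps the algorithm with index `|y|` maps the length two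
program `p` to `[]` and the length three program `q` to `[false]`, return `2` or `1` according to
whether `p`, `q` start with the same bit; otherwise return `0`. -/
def chk (y : List Bool) (t : ℕ × List Bool × List Bool) : ℕ :=
  if evaln t.1 (ofNat Code y.length) (encode (t.2.1, y)) = some (encode ([] : List Bool)) ∧
      evaln t.1 (ofNat Code y.length) (encode (t.2.2, y)) = some (encode [false]) ∧
      t.2.1.length = 2 ∧ t.2.2.length = 3 then
    (if t.2.1.head? = t.2.2.head? then 2 else 1) else 0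

/-- `chk` on a natural number code. -/
def chkN (y : List Bool) (m : ℕ) : ℕ :=
  ((decode (α := ℕ × List Bool × List Bool) m).map (chk y)).getD 0

/-- The first nonzero value of `chkN y m` for `m < n`. -/
def state (y : List Bool) (n : ℕ) : ℕ :=
  Nat.rec 0 (fun m s => if s = 0 then chkN y m else s) n

/-- The value of the complexity-like function in each state. -/
def val (s : ℕ) (x : List Bool) : ℕ :=
  if x = [] then (if s = 2 then 1 else 2)
  else if x = [false] then 3
  else if x = [true] then (if s = 1 then 1 else 2)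
  else encode x + 5

theorem chk_primrec : Primrec₂ chk := by
  have hc : Primrec fun a : List Bool × (ℕ × List Bool × List Bool) =>
      ofNat Code a.1.length := (Primrec.ofNat Code).comp (Primrec.list_length.comp Primrec.fst)
  have hs : Primrec fun a : List Bool × (ℕ × List Bool × List Bool) => a.2.1 :=
    Primrec.fst.comp Primrec.snd
  have hp : Primrec fun a : List Bool × (ℕ × List Bool × List Bool) => a.2.2.1 :=
    Primrec.fst.comp (Primrec.snd.comp Primrec.snd)
  have hq : Primrec fun a : List Bool × (ℕ × List Bool × List Bool) => a.2.2.2 :=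
    Primrec.snd.comp (Primrec.snd.comp Primrec.snd)
  have he1 : Primrec fun a : List Bool × (ℕ × List Bool × List Bool) =>
      evaln a.2.1 (ofNat Code a.1.length) (encode (a.2.2.1, a.1)) :=
    primrec_evaln.comp ((hs.pair hc).pair (Primrec.encode.comp (hp.pair Primrec.fst)))
  have he2 : Primrec fun a : List Bool × (ℕ × List Bool × List Bool) =>
      evaln a.2.1 (ofNat Code a.1.length) (encode (a.2.2.2, a.1)) :=
    primrec_evaln.comp ((hs.pair hc).pair (Primrec.encode.comp (hq.pair Primrec.fst)))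
  unfold chk
  refine Primrec.ite ?_ (Primrec.ite ?_ (Primrec.const 2) (Primrec.const 1)) (Primrec.const 0)
  · refine PrimrecPred.and (Primrec.eq.comp he1 (Primrec.const _))
      (PrimrecPred.and (Primrec.eq.comp he2 (Primrec.const _))
        (PrimrecPred.and (Primrec.eq.comp (Primrec.list_length.comp hp) (Primrec.const _))
          (Primrec.eq.comp (Primrec.list_length.comp hq) (Primrec.const _))))
  · exact Primrec.eq.comp (Primrec.list_head?.comp hp) (Primrec.list_head?.comp hq)

theorem chkN_primrec : Primrec₂ chkN := by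
  unfold chkN
  refine Primrec.option_getD.comp (Primrec.option_map (Primrec.decode.comp Primrec.snd)
    (chk_primrec.comp (Primrec.fst.comp Primrec.fst) Primrec.snd).to₂) (Primrec.const 0)

theorem state_primrec : Primrec₂ state := by
  unfold state
  refine Primrec.nat_rec (f := fun _ : List Bool => 0)
    (g := fun y (p : ℕ × ℕ) => if p.2 = 0 then chkN y p.1 else p.2) (Primrec.const 0) ?_
  refine Primrec.ite (Primrec.eq.comp (Primrec.snd.comp Primrec.snd) (Primrec.const 0))
    (chkN_primrec.comp Primrec.fst (Primrec.fst.comp Primrec.snd)) (Primrec.snd.comp Primrec.snd)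

theorem val_primrec : Primrec₂ val := by
  unfold val
  refine Primrec.ite (Primrec.eq.comp Primrec.snd (Primrec.const _))
    (Primrec.ite (Primrec.eq.comp Primrec.fst (Primrec.const _)) (Primrec.const _)
      (Primrec.const _))
    (Primrec.ite (Primrec.eq.comp Primrec.snd (Primrec.const _)) (Primrec.const _)
      (Primrec.ite (Primrec.eq.comp Primrec.snd (Primrec.const _))
        (Primrec.ite (Primrec.eq.comp Primrec.fst (Primrec.const _)) (Primrec.const _)
          (Primrec.const _))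
        (Primrec.nat_add.comp (Primrec.encode.comp Primrec.snd) (Primrec.const _))))

theorem state_succ (y : List Bool) (n : ℕ) :
    state y (n + 1) = if state y n = 0 then chkN y n else state y n := rfl

theorem state_stable (y : List Bool) {n m : ℕ} (h : n ≤ m) (h0 : state y n ≠ 0) :
    state y m = state y n := by
  induction m, h using Nat.le_induction with
  | base => rfl
  | succ m _ ih => rw [state_succ, ih, if_neg h0]

theorem state_spec (y : List Bool) (n : ℕ) :
    (state y n = 0 ∧ ∀ m < n, chkN y m = 0) ∨ (state y n ≠ 0 ∧ ∃ m, chkN y m = state y n) := by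
  induction n with
  | zero => exact Or.inl ⟨rfl, fun _ h => absurd h (Nat.not_lt_zero _)⟩
  | succ n ih =>
    rw [state_succ]
    rcases ih with ⟨h1, h2⟩ | ⟨h1, h2⟩
    · rw [if_pos h1]
      by_cases h : chkN y n = 0
      · refine Or.inl ⟨h, fun m hm => ?_⟩
        rcases Nat.lt_succ_iff_lt_or_eq.1 hm with h' | rfl
        · exact h2 m h'
        · exact h
      · exact Or.inr ⟨h, n, rfl⟩
    · rw [if_neg h1]
      exact Or.inr ⟨h1, h2⟩

theorem val_le (s : ℕ) (x : List Bool) : val s x ≤ val 0 x := by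
  unfold val
  split_ifs <;> simp_all

/-- The final state. -/
theorem exists_final (y : List Bool) : ∃ s : ℕ, (∀ᶠ n in Filter.atTop, state y n = s) ∧
    ((s = 0 ∧ ∀ m, chkN y m = 0) ∨ (s ≠ 0 ∧ ∃ m, chkN y m = s)) := by
  by_cases h : ∃ n, state y n ≠ 0
  · obtain ⟨n, hn⟩ := h
    refine ⟨state y n, Filter.eventually_atTop.2 ⟨n, fun m hm => state_stable y hm hn⟩, ?_⟩
    rcases state_spec y n with ⟨h1, -⟩ | h1
    · exact absurd h1 hn
    · exact Or.inr h1
  · push Not at h
    refine ⟨0, Filter.Eventually.of_forall h, Or.inl ⟨rfl, fun m => ?_⟩⟩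
    rcases state_spec y (m + 1) with ⟨-, h1⟩ | ⟨h1, -⟩
    · exact h1 m (Nat.lt_succ_self m)
    · exact absurd (h _) h1

theorem sum_val (s : ℕ) : ∑' x : List Bool, (2⁻¹ : ℝ≥0∞) ^ val s x ≤
    2⁻¹ ^ 1 + 2⁻¹ ^ 2 + 2⁻¹ ^ 3 + 2⁻¹ ^ 4 := by
  classical
  have h1 : ∀ x : List Bool, (2⁻¹ : ℝ≥0∞) ^ val s x ≤
      (if x = [] then (2⁻¹ : ℝ≥0∞) ^ (if s = 2 then 1 else 2) else 0) +
      (if x = [false] then (2⁻¹ : ℝ≥0∞) ^ 3 else 0) +
      (if x = [true] then (2⁻¹ : ℝ≥0∞) ^ (if s = 1 then 1 else 2) else 0) +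
      (2⁻¹ : ℝ≥0∞) ^ (encode x + (4 + 1)) := by
    intro x
    unfold val
    by_cases h1 : x = []
    · subst h1; simp
    by_cases h2 : x = [false]
    · subst h2; simp
    by_cases h3 : x = [true]
    · subst h3; simp
    simp [h1, h2, h3]
  refine (ENNReal.tsum_le_tsum h1).trans ?_
  rw [ENNReal.tsum_add, ENNReal.tsum_add, ENNReal.tsum_add, tsum_ite_eq, tsum_ite_eq, tsum_ite_eq]
  have h2 := Pool.Agent.P.MP_6b7d8e_lc.tsum_base 4
  have h3 : (2⁻¹ : ℝ≥0∞) ^ (if s = 2 then 1 else 2) + (2⁻¹ : ℝ≥0∞) ^ (if s = 1 then 1 else 2) ≤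
      2⁻¹ ^ 1 + 2⁻¹ ^ 2 := by
    have h4 : (2⁻¹ : ℝ≥0∞) ^ 2 ≤ 2⁻¹ ^ 1 :=
      pow_le_pow_of_le_one (by norm_num) (by norm_num) (by norm_num)
    by_cases h : s = 2
    · subst h; simp
    by_cases h' : s = 1
    · subst h'; simp [add_comm]
    rw [if_neg h, if_neg h']
    gcongr
  calc _ ≤ (2⁻¹ : ℝ≥0∞) ^ (if s = 2 then 1 else 2) + (2⁻¹ : ℝ≥0∞) ^ 3 +
        (2⁻¹ : ℝ≥0∞) ^ (if s = 1 then 1 else 2) + 2⁻¹ ^ 4 := by gcongr
    _ = ((2⁻¹ : ℝ≥0∞) ^ (if s = 2 then 1 else 2) + (2⁻¹ : ℝ≥0∞) ^ (if s = 1 then 1 else 2)) +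
        2⁻¹ ^ 3 + 2⁻¹ ^ 4 := by ring
    _ ≤ (2⁻¹ : ℝ≥0∞) ^ 1 + 2⁻¹ ^ 2 + 2⁻¹ ^ 3 + 2⁻¹ ^ 4 := by gcongr

theorem sum_min (s : ℕ) (f : List Bool → ℕ) (hf : ∑' x : List Bool, (2⁻¹ : ℝ≥0∞) ^ f x ≤ 1) :
    ∑' x : List Bool, (2⁻¹ : ℝ≥0∞) ^ min (val s x) (f x + 4) ≤ 1 := by
  have e : ∀ k : ℕ, (2⁻¹ : ℝ≥0∞) ^ (k + 1) + 2⁻¹ ^ (k + 1) = 2⁻¹ ^ k := by
    intro k
    rw [pow_succ, ← mul_add, ENNReal.inv_two_add_inv_two, mul_one]
  calc _ ≤ ∑' x : List Bool, ((2⁻¹ : ℝ≥0∞) ^ val s x + 2⁻¹ ^ f x * 2⁻¹ ^ 4) :=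
        ENNReal.tsum_le_tsum fun x => by
          rw [← pow_add]; exact Pool.Agent.P.MP_6b7d8e_lc.half_pow_min _ _
    _ ≤ (2⁻¹ ^ 1 + 2⁻¹ ^ 2 + 2⁻¹ ^ 3 + 2⁻¹ ^ 4) + 1 * 2⁻¹ ^ 4 := by
        rw [ENNReal.tsum_add, ENNReal.tsum_mul_right]
        gcongr
        exact sum_val s
    _ = 1 := by
        rw [one_mul, add_assoc, e 3, add_assoc, e 2, add_assoc, e 1, e 0, pow_zero]

theorem exists_prog {U : List Bool → List Bool →. List Bool} {x y : List Bool} {k : ℕ}
    (h : C U x y = k) : ∃ p : List Bool, x ∈ U p y ∧ p.length = k := by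
  have hne : {n : ℕ∞ | ∃ p : List Bool, x ∈ U p y ∧ (p.length : ℕ∞) = n}.Nonempty := by
    by_contra h0
    rw [Set.not_nonempty_iff_eq_empty] at h0
    rw [C, h0, sInf_empty] at h
    exact ENat.top_ne_natCast k h
  obtain ⟨p, h1, h2⟩ := csInf_mem hne
  refine ⟨p, h1, ?_⟩
  rw [C, ← h2] at h
  exact_mod_cast h

theorem comb1 (p q r : List Bool) (hp : p.length = 2) (hq : q.length = 3) (hr : r.length = 1)
    (h : p.head? ≠ q.head?) : r <+: p ∨ r <+: q := by
  obtain ⟨a, b, rfl⟩ := List.length_eq_two.1 hp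
  obtain ⟨c, d, e, rfl⟩ := List.length_eq_three.1 hq
  obtain ⟨f, rfl⟩ := List.length_eq_one_iff.1 hr
  revert h a b c d e f
  decide

theorem comb2 (p q r t : List Bool) (hp : p.length = 2) (hq : q.length = 3) (hr : r.length = 1)
    (ht : t.length = 2) (h : p.head? = q.head?) :
    r <+: q ∨ p <+: q ∨ t <+: q ∨ t <+: p ∨ r <+: t := by
  obtain ⟨a, b, rfl⟩ := List.length_eq_two.1 hp
  obtain ⟨c, d, e, rfl⟩ := List.length_eq_three.1 hq
  obtain ⟨f, rfl⟩ := List.length_eq_one_iff.1 hr
  obtain ⟨g, i, rfl⟩ := List.length_eq_two.1 ht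
  revert h a b c d e f g i
  decide

/-- There is an admissible `K`, even a minimal one (below every admissible function up to an
additive constant), that differs from `C_U` for every prefix-free and for every prefix-stable
conditional algorithm `U`. -/
theorem result : ∃ K : List Bool → List Bool → ℕ, Admissible K ∧
    (∀ K' : List Bool → List Bool → ℕ, Admissible K' → ∃ c : ℕ, ∀ x y, K x y ≤ K' x y + c) ∧
    ∀ U : List Bool → List Bool →. List Bool, Partrec₂ U → (PrefixFree U ∨ PrefixStable U) →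
      ∃ x y : List Bool, C U x y ≠ K x y := by
  choose fin hfin hspec using exists_final
  obtain ⟨k0, K0, hk0, hanti, hlim, hsum, hmin⟩ := Pool.Agent.P.MP_6b7d8e_lc.exists_univ
  refine ⟨fun x y => min (val (fin y) x) (K0 x y + 4),
    ⟨⟨fun n x y => min (val (state y n) x) (k0 n x y + 4), ?_, ?_, ?_⟩,
    fun y => sum_min _ _ (hsum y)⟩, ?_, ?_⟩
  · exact (Primrec.nat_min.comp
      (val_primrec.comp (state_primrec.comp (Primrec.snd.comp Primrec.snd) Primrec.fst)
        (Primrec.fst.comp Primrec.snd)) (Primrec.nat_add.comp hk0 (Primrec.const 4))).to_comp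
  · intro x y n m hnm
    refine min_le_min ?_ (Nat.add_le_add_right (hanti x y hnm) 4)
    by_cases h : state y n = 0
    · rw [h]
      exact val_le _ _
    · rw [state_stable y hnm h]
  · intro x y
    refine tendsto_const_nhds.congr' ?_
    filter_upwards [hfin y, hlim x y] with n hn hn'
    rw [hn, hn']
  · rintro K' ⟨⟨k, hk1, hk2, hk3⟩, hk4⟩
    have hev : ∀ x y, ∀ᶠ n in Filter.atTop, k n x y = K' x y := fun x y => by
      simpa [nhds_discrete, Filter.tendsto_pure] using hk3 x y
    obtain ⟨c, hc⟩ := hmin k K' hk1 (fun n x y => by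
      obtain ⟨m, hm1, hm2⟩ := ((hev x y).and (Filter.eventually_ge_atTop n)).exists
      rw [← hm1]
      exact hk2 x y hm2) (fun x y => (hev x y).exists) hk4
    refine ⟨c + 4, fun x y => (min_le_right _ _).trans ?_⟩
    have := hc x y
    omega
  intro U hU hpre
  -- programs with different outputs are incomparable
  have hinc : ∀ y p p' x x', x ∈ U p y → x' ∈ U p' y → x ≠ x' → ¬ p <+: p' := by
    intro y p p' x x' h1 h2 h3 h4
    rcases hpre with h | h
    · refine h y p p' ?_ h4 ⟨Part.dom_iff_mem.2 ⟨_, h1⟩, Part.dom_iff_mem.2 ⟨_, h2⟩⟩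
      rintro rfl
      exact h3 (Part.mem_unique h1 h2)
    · exact h3 (Part.mem_unique (h y p p' x h4 h1) h2)
  obtain ⟨c, hc⟩ := exists_code.1 hU
  set y : List Bool := List.replicate (encode c) false with hy
  have hcy : ofNat Code y.length = c := by simp [hy]
  have hev : ∀ p x : List Bool, encode x ∈ eval c (encode (p, y)) ↔ x ∈ U p y := by
    intro p x
    rw [hc]
    simp only [encodek, Part.coe_some, Part.bind_some, Part.mem_map_iff]
    constructor
    · rintro ⟨a, h1, h2⟩
      rwa [← encode_injective h2]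
    · intro h
      exact ⟨x, h, rfl⟩
  by_contra hcon
  push Not at hcon
  have hprog : ∀ x, val 0 x ≤ 4 → ∃ p : List Bool, x ∈ U p y ∧ p.length = val (fin y) x := by
    intro x hx
    obtain ⟨p, h1, h2⟩ := exists_prog (hcon x y)
    have h3 := val_le (fin y) x
    exact ⟨p, h1, h2.trans (min_eq_left (by omega))⟩
  obtain ⟨p0, hp0, lp0⟩ := hprog [] (by decide)
  obtain ⟨p1, hp1, lp1⟩ := hprog [false] (by decide)
  obtain ⟨p2, hp2, lp2⟩ := hprog [true] (by decide)
  rcases hspec y with ⟨h0, h1⟩ | ⟨h0, m, hm⟩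
  · rw [h0] at lp0 lp1
    obtain ⟨s0, hs0⟩ := evaln_complete.1 ((hev _ _).2 hp0)
    obtain ⟨s1, hs1⟩ := evaln_complete.1 ((hev _ _).2 hp1)
    have := h1 (encode (max s0 s1, p0, p1))
    rw [chkN, encodek, Option.map_some, Option.getD_some, chk, if_pos] at this
    · split_ifs at this
    · rw [hcy]
      exact ⟨evaln_mono (le_max_left _ _) hs0, evaln_mono (le_max_right _ _) hs1, lp0, lp1⟩
  · rw [chkN] at hm
    cases hd : decode (α := ℕ × List Bool × List Bool) m with
    | none => rw [hd] at hm; exact h0 hm.symm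
    | some t =>
      rw [hd, Option.map_some, Option.getD_some, chk] at hm
      split_ifs at hm with h1 h2
      · obtain ⟨e1, e2, l1, l2⟩ := h1
        rw [hcy] at e1 e2
        have u1 := (hev _ _).1 (evaln_sound e1)
        have u2 := (hev _ _).1 (evaln_sound e2)
        rw [← hm] at lp0 lp2
        rcases comb2 t.2.1 t.2.2 p0 p2 l1 l2 lp0 lp2 h2 with h | h | h | h | h
        · exact hinc _ _ _ _ _ hp0 u2 (by decide) h
        · exact hinc _ _ _ _ _ u1 u2 (by decide) h
        · exact hinc _ _ _ _ _ hp2 u2 (by decide) h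
        · exact hinc _ _ _ _ _ hp2 u1 (by decide) h
        · exact hinc _ _ _ _ _ hp0 hp2 (by decide) h
      · obtain ⟨e1, e2, l1, l2⟩ := h1
        rw [hcy] at e1 e2
        have u1 := (hev _ _).1 (evaln_sound e1)
        have u2 := (hev _ _).1 (evaln_sound e2)
        rw [← hm] at lp2
        rcases comb1 t.2.1 t.2.2 p2 l1 l2 lp2 h2 with h | h
        · exact hinc _ _ _ _ _ hp2 u1 (by decide) h
        · exact hinc _ _ _ _ _ hp2 u2 (by decide) h
      · exact h0 hm.symm

end Pool.Agent.Results.MP_6b7d8e_lc.NotRealised
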